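import Pool.Agent.Y124.TL.Fm
import Pool.Agent.Y124.TG.Bw

/-!
# Independence of the values of a family of G-functions and of logarithms at several points
-/

set_option autoImplicit false

open PowerSeries Pool.Agent.Y113 Pool.Agent.Y120.GF Pool.Agent.Y120.GH

namespace Pool.Agent.Y124.TL

variable {r d : ℕ}

/-- the data of a family -/
structure GF (T : Polynomial ℤ) (A : Fin r → Fin r → Polynomial ℤ) (h : Fin r → ℚ⟦X⟧) : Prop where
  ne : T ≠ 0
  ode : ∀ i, ps T * d⁄dX ℚ (h i) = ∑ j, ps (A i j) * h j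
  gs : ∃ (q : ℕ) (C : ℝ), GSys q C T h
  qu : QU0 T A

lemma GF.size' {T : Polynomial ℤ} {A : Fin r → Fin r → Polynomial ℤ} {h : Fin r → ℚ⟦X⟧} (hF : GF T A h) :
    ∃ C : ℝ, 1 ≤ C ∧ ∀ i m, |((coeff m (h i) : ℚ) : ℝ)| ≤ C ^ (m + 1) := by
  obtain ⟨q, C, hC⟩ := hF.gs
  exact ⟨C, hC.one_le, hC.size⟩

/-- the values `h_i(1/t)` -/
noncomputable def hv (h : Fin r → ℚ⟦X⟧) (x : ℝ) (i : Fin r) : ℂ := ((ev x (h i) : ℝ) : ℂ)

/-- the values `log (1 - g / t)` and `h_i(1/(t-g))` -/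
noncomputable def xv (h : Fin r → ℚ⟦X⟧) (T : Fin d → Fin r) (t g : ℕ) (o : Option (Fin d)) : ℂ :=
  o.elim ((Real.log (1 - g / t) : ℝ) : ℂ) fun i => hv h ((t - g : ℕ) : ℝ) (T i)

/-- the word of a monomial, with padding -/
def wP (T : Fin d → Fin r) {N : ℕ} (s : Fin d → Fin (N + 1)) (j : Fin ((d + 1) * N)) : Option (Fin r) :=
  Fin.lastCases (motive := fun _ => Option (Fin r)) none
    (fun i => if ((finProdFinEquiv.symm j).2 : ℕ) < (s i : ℕ) then some (T i) else none) (finProdFinEquiv.symm j).1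

lemma yw_wP {M : Type} [CommMonoid M] (T : Fin d → Fin r) {N : ℕ} (s : Fin d → Fin (N + 1)) (z : Fin r → M) :
    yw z (wP T s) = ∏ i, z (T i) ^ (s i : ℕ) := by
  unfold yw
  let f : Fin (d + 1) × Fin N → M := fun pq =>
    (Fin.lastCases (motive := fun _ => Option (Fin r)) none (fun i => if (pq.2 : ℕ) < (s i : ℕ) then some (T i) else none) pq.1).elim 1 z
  have h1 : ∀ j, (wP T s j).elim 1 z = f (finProdFinEquiv.symm j) := fun j => rfl
  rw [Finset.prod_congr rfl fun j _ => h1 j, Equiv.prod_comp finProdFinEquiv.symm f, Fintype.prod_prod_type, Fin.prod_univ_castSucc]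
  have h2 : ∏ q : Fin N, f (Fin.last d, q) = 1 := by
    refine Finset.prod_eq_one fun q _ => ?_
    show (Fin.lastCases (motive := fun _ => Option (Fin r)) none _ (Fin.last d)).elim 1 z = 1
    rw [Fin.lastCases_last]
    rfl
  rw [h2, mul_one]
  refine Finset.prod_congr rfl fun p _ => ?_
  have h3 : ∀ q : Fin N, f (Fin.castSucc p, q) = if (q : ℕ) < (s p : ℕ) then z (T p) else 1 := by
    intro q
    show (Fin.lastCases (motive := fun _ => Option (Fin r)) none _ (Fin.castSucc p)).elim 1 z = _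
    rw [Fin.lastCases_castSucc]
    split_ifs
    · rfl
    · rfl
  rw [Finset.prod_congr rfl fun q _ => h3 q]
  exact Pool.Agent.Y124.TD.prod_if N (s p : ℕ) (Nat.lt_succ_iff.1 (s p).2) (z (T p))

/-- the values of the products -/
lemma ev_yw {h : Fin r → ℚ⟦X⟧} {C : ℝ} (hC : 1 ≤ C) (hh : ∀ i m, |((coeff m (h i) : ℚ) : ℝ)| ≤ C ^ (m + 1)) {δ : ℕ}
    (b : Fin δ → Option (Fin r)) {x : ℝ} (hx : C < x) : ((ev x (yw h b) : ℝ) : ℂ) = yw (hv h x) b := by
  have hx0 : 0 < x := by linarith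
  unfold yw
  have h1 : ∀ j, Pool.Agent.Y113.Cv x ((b j).elim 1 h) := by
    intro j
    rcases b j with _ | i
    · refine Pool.Agent.Y113.Cv.of_bound (A := C) (B := C) hx0 (by linarith) hx fun m => ?_
      show |((coeff m (1 : ℚ⟦X⟧) : ℚ) : ℝ)| ≤ _
      rw [PowerSeries.coeff_one]
      split_ifs with h0
      · rw [Rat.cast_one, abs_one, ← pow_succ']
        exact one_le_pow₀ hC
      · rw [Rat.cast_zero, abs_zero]
        positivity
    · refine Pool.Agent.Y113.Cv.of_bound (A := C) (B := C) hx0 (by linarith) hx fun m => ?_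
      exact (hh i m).trans (le_of_eq (pow_succ' _ _))
  rw [Pool.Agent.Y113.Cv.ev_prod hx0 Finset.univ (fun j => (b j).elim 1 h) fun j _ => h1 j, Complex.ofReal_prod]
  refine Finset.prod_congr rfl fun j _ => ?_
  rcases b j with _ | i
  · show ((ev x 1 : ℝ) : ℂ) = 1
    rw [Pool.Agent.Y113.ev_one]
    simp
  · rfl

lemma wP_zero (T : Fin d → Fin r) {N : ℕ} : wP T (fun _ => (0 : Fin (N + 1))) = fun _ => none := by
  funext j
  unfold wP
  refine Fin.lastCases ?_ (fun i => ?_) (finProdFinEquiv.symm j).1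
  · rw [Fin.lastCases_last]
  · rw [Fin.lastCases_castSucc, if_neg]
    simp

/-- **The base** -/
theorem base {T : Polynomial ℤ} {A : Fin r → Fin r → Polynomial ℤ} {h : Fin r → ℚ⟦X⟧} (hF : GF T A h) :
    ∃ R : ℕ, ∀ {d : ℕ} (T₀ : Fin d → Fin r), AlgebraicIndependent (Polynomial ℚ) (fun i => h (T₀ i)) →
      ∀ N k : ℕ, ∃ E : ℕ, ∀ H t : ℕ, (H + 2) ^ E ≤ t → ∀ g : Fin k → ℕ, SepR R g → (∀ l, g l ≤ H) →
        LinearIndependent ℚ (fun s : Fin k × Option (Fin d) → Fin (N + 1) => ∏ i, xv h T₀ t (g i.1) i.2 ^ (s i : ℕ)) := by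
  classical
  obtain ⟨q₁, C₁, hG₁⟩ := hF.gs
  obtain ⟨R, hR⟩ := fam hF.ne hF.ode hG₁ hF.qu
  refine ⟨R, fun {d} T₀ hT N k => ?_⟩
  have hli := Pool.Agent.Y124.TG.li_box hT N
  have hwd : ∀ s : Fin d → Fin (N + 1), yw h (wP T₀ s) = ∏ i, h (T₀ i) ^ (s i : ℕ) := fun s => yw_wP T₀ s h
  have hinj : Function.Injective (wP T₀ : (Fin d → Fin (N + 1)) → (Fin ((d + 1) * N) → Option (Fin r))) := by
    intro s s' hss
    apply hli.injective
    show ∏ i, h (T₀ i) ^ (s i : ℕ) = ∏ i, h (T₀ i) ^ (s' i : ℕ)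
    rw [← hwd, ← hwd, hss]
  obtain ⟨B, hB, ⟨C, hC, hCw⟩, hE⟩ := hR ((d + 1) * N) (Finset.univ.image (wP T₀))
    (Finset.mem_image.2 ⟨fun _ => 0, Finset.mem_univ _, wP_zero T₀⟩) (by
      intro g hg
      rw [Finset.sum_image fun s _ s' _ hss => hinj hss] at hg
      have h1 := (Fintype.linearIndependent_iff.1 hli) (fun s => g (wP T₀ s)) (by
        rw [← hg]
        refine Finset.sum_congr rfl fun s _ => ?_
        rw [Pool.Agent.Y120.GF.psmul, hwd])
      intro i hi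
      obtain ⟨s, -, rfl⟩ := Finset.mem_image.1 hi
      exact h1 s)
  obtain ⟨E, hE⟩ := hE k
  obtain ⟨C₀, hC₀, hC₀h⟩ := hF.size'
  obtain ⟨C₃, hC₃⟩ := exists_nat_ge (C + C₀)
  refine ⟨E + (C₃ + 1), ?_⟩
  intro H t hHt g hg hgH
  have h1 : (H + 2) ^ E ≤ t := (Nat.pow_le_pow_right (by omega) (by omega)).trans hHt
  have hHt' : H + C₃ < t := by
    have h1 : (H + 2) ^ (C₃ + 1) ≤ t := (Nat.pow_le_pow_right (by omega) (by omega)).trans hHt
    have h2 : C₃ < 2 ^ C₃ := Nat.lt_two_pow_self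
    have h3 : 2 ^ C₃ ≤ (H + 2) ^ C₃ := Nat.pow_le_pow_left (by omega) _
    have h4 : (C₃ + 1) * (H + 2) ≤ (H + 2) ^ (C₃ + 1) := by
      rw [pow_succ]
      exact Nat.mul_le_mul_right _ (by omega)
    have h5 : H + C₃ < (C₃ + 1) * (H + 2) := by nlinarith
    omega
  have hbase := hE H t h1 g hg hgH
  have hbase2 : LinearIndependent ℚ (fun b : Fin k → B × Fin ((d + 1) * N + 1) =>
      ((∏ l, ev (t : ℝ) (Fg ((d + 1) * N + 1) (fun β : B => yw h β.1) (g l) (b l)) : ℝ) : ℂ)) := by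
    have h2 := hbase.map' ((Algebra.linearMap ℝ ℂ).restrictScalars ℚ) (by
      rw [LinearMap.ker_eq_bot]
      intro x y hxy
      exact Complex.ofReal_injective hxy)
    exact h2
  have hval : ∀ b : Fin k → B × Fin ((d + 1) * N + 1),
      ((∏ l, ev (t : ℝ) (Fg ((d + 1) * N + 1) (fun β : B => yw h β.1) (g l) (b l)) : ℝ) : ℂ) =
      (∏ l, (1 / (((b l).2 : ℕ).factorial : ℚ)) : ℚ) • ∏ l, (yw (hv h ((t - g l : ℕ) : ℝ)) (b l).1.1 *
        (((Real.log (1 - g l / t) : ℝ) : ℂ)) ^ ((b l).2 : ℕ)) := by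
    intro b
    rw [Rat.smul_def]
    push_cast
    rw [← Finset.prod_mul_distrib]
    refine Finset.prod_congr rfl fun l _ => ?_
    have h4 : g l + C₃ < t := by
      have := hgH l
      omega
    have h3 : ((g l : ℕ) : ℝ) + C < t := by
      have h5 : ((g l : ℝ) + C₃) < t := by exact_mod_cast h4
      linarith
    have h6 := Pool.Agent.Y124.TD.ev_Fg (n := (d + 1) * N) hC (fun β : B => hCw β.1) h3 (b l)
    rw [h6]
    have h7 : ((ev ((t - g l : ℕ) : ℝ) (yw h (b l).1.1) : ℝ) : ℂ) = yw (hv h ((t - g l : ℕ) : ℝ)) (b l).1.1 := by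
      refine ev_yw hC₀ hC₀h _ ?_
      rw [Nat.cast_sub (by omega)]
      have h5 : ((g l : ℝ) + C₃) < t := by exact_mod_cast h4
      linarith
    rw [h7]
    push_cast
    ring
  have hbase3 : LinearIndependent ℚ (fun b : Fin k → B × Fin ((d + 1) * N + 1) => ∏ l, (yw (hv h ((t - g l : ℕ) : ℝ)) (b l).1.1 *
        (((Real.log (1 - g l / t) : ℝ) : ℂ)) ^ ((b l).2 : ℕ))) := by
    have hu : ∀ b : Fin k → B × Fin ((d + 1) * N + 1), IsUnit (∏ l, (1 / (((b l).2 : ℕ).factorial : ℚ)) : ℚ) := by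
      intro b
      rw [isUnit_iff_ne_zero, Finset.prod_ne_zero_iff]
      intro l _
      exact one_div_ne_zero (by exact_mod_cast Nat.factorial_ne_zero _)
    choose u hu using hu
    rw [← LinearIndependent.units_smul_iff (w := u)]
    convert hbase2 using 1
    funext b
    rw [hval b, ← hu b]
    rfl
  have hN : N ≤ (d + 1) * N := Nat.le_mul_of_pos_left _ (Nat.succ_pos d)
  -- restriction
  let φ : (Fin k × Option (Fin d) → Fin (N + 1)) → (Fin k → B × Fin ((d + 1) * N + 1)) := fun s l =>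
    (⟨wP T₀ fun i => s (l, some i), hB (Finset.mem_image_of_mem _ (Finset.mem_univ _))⟩,
      ⟨(s (l, none) : ℕ), lt_of_lt_of_le (s (l, none)).2 (Nat.succ_le_succ hN)⟩)
  have hφ : Function.Injective φ := by
    intro s s' h
    funext ⟨l, o⟩
    have h1 := congrFun h l
    rcases o with _ | i
    · have h3 := congrArg (fun p : B × Fin ((d + 1) * N + 1) => (p.2 : ℕ)) h1
      exact Fin.ext h3
    · have h2 := congrArg (fun p : B × Fin ((d + 1) * N + 1) => (p.1 : Fin ((d + 1) * N) → Option (Fin r))) h1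
      exact congrFun (hinj (a₁ := fun i => s (l, some i)) (a₂ := fun i => s' (l, some i)) h2) i
  have h4 : (fun s : Fin k × Option (Fin d) → Fin (N + 1) => ∏ i, xv h T₀ t (g i.1) i.2 ^ (s i : ℕ)) =
      (fun b : Fin k → B × Fin ((d + 1) * N + 1) => ∏ l, (yw (hv h ((t - g l : ℕ) : ℝ)) (b l).1.1 *
        (((Real.log (1 - g l / t) : ℝ) : ℂ)) ^ ((b l).2 : ℕ))) ∘ φ := by
    funext s
    show _ = ∏ l, (yw (hv h ((t - g l : ℕ) : ℝ)) (wP T₀ fun i => s (l, some i)) *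
        (((Real.log (1 - g l / t) : ℝ) : ℂ)) ^ (s (l, none) : ℕ))
    rw [Fintype.prod_prod_type]
    refine Finset.prod_congr rfl fun l _ => ?_
    rw [Fintype.prod_option, yw_wP, mul_comm]
    rfl
  rw [h4]
  exact hbase3.comp φ hφ

end Pool.Agent.Y124.TL
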