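import Pool.Agent.Y124.TL.Rf
import Pool.Agent.Y124.TH.Ca

/-!
# The two lower bounds, families with logarithms
-/

set_option autoImplicit false

open Module Finset

namespace Pool.Agent.Y124.TL

open Pool.Agent.Y124.TD Pool.Agent.Y124.TG Pool.Agent.Y120.GH

variable {n r d : ℕ}

section ex
variable {N : Matrix (Fin n) (Fin n) ℚ} {b : ℕ}

/-- `exp (x N)` -/
noncomputable def EX (N : Matrix (Fin n) (Fin n) ℚ) (x : ℂ) : Matrix (Fin n) (Fin n) ℂ :=
  IsNilpotent.exp (x • N.map (algebraMap ℚ ℂ))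

lemma map_pow' (N : Matrix (Fin n) (Fin n) ℚ) (a : ℕ) : (N.map (algebraMap ℚ ℂ)) ^ a = (N ^ a).map (algebraMap ℚ ℂ) :=
  (map_pow (RingHom.mapMatrix (algebraMap ℚ ℂ)) N a).symm

lemma nil_map (hN : N ^ b = 0) (x : ℂ) : (x • N.map (algebraMap ℚ ℂ)) ^ b = 0 := by
  rw [smul_pow, map_pow', hN, Matrix.map_zero _ (map_zero _), smul_zero]

lemma EX_add (hN : N ^ b = 0) (x y : ℂ) : EX N x * EX N y = EX N (x + y) := by
  unfold EX
  rw [add_smul, IsNilpotent.exp_add_of_commute _ ⟨b, nil_map hN x⟩ ⟨b, nil_map hN y⟩]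
  exact ((Commute.refl (N.map (algebraMap ℚ ℂ))).smul_left x).smul_right y

lemma EX_zero : EX N 0 = 1 := by
  unfold EX
  rw [zero_smul, IsNilpotent.exp_zero]

lemma EX_mem {K : IntermediateField ℚ ℂ} {V : Submodule K ℂ} (h1 : (1 : ℂ) ∈ V) (hN : N ^ b = 0) {x : ℂ} (hx : x ∈ V) (i j : Fin n) :
    EX N x i j ∈ V ^ b := by
  unfold EX
  rw [IsNilpotent.exp_eq_sum (nil_map hN x), Matrix.sum_apply]
  refine Submodule.sum_mem _ fun a ha => ?_
  rw [smul_pow, map_pow', Matrix.smul_apply, Matrix.smul_apply, Matrix.map_apply, Rat.smul_def, smul_eq_mul, eq_ratCast]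
  refine mQ _ ?_
  rw [mul_comm]
  refine mQ _ ?_
  have h2 := mem_pow_pow (W := V) (d := 1) (x := x) (by rw [pow_one]; exact hx) a
  rw [one_mul] at h2
  exact pow_mem_mono h1 (Finset.mem_range.1 ha).le h2

end ex

/-- the matrix of the values -/
noncomputable def Zr (h : Fin r → PowerSeries ℚ) (ψ : Fin n × Fin n → Fin r) (x : ℝ) : Matrix (Fin n) (Fin n) ℂ :=
  Matrix.of fun i j => hv h x (ψ (i, j))

theorem fin_main {T : Polynomial ℤ} {A : Fin r → Fin r → Polynomial ℤ} {h : Fin r → PowerSeries ℚ} (hF : GF T A h)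
    (ψ : Fin n × Fin n → Fin r) (hψ : Function.Surjective ψ) {W : Fin n → Fin n → PowerSeries ℚ}
    (hinv : ∀ i j, ∑ k, W i k * h (ψ (k, j)) = if i = j then 1 else 0)
    (hWs : ∃ C : ℝ, 1 ≤ C ∧ ∀ i j m, |((PowerSeries.coeff m (W i j) : ℚ) : ℝ)| ≤ C ^ (m + 1))
    {N : Matrix (Fin n) (Fin n) ℚ} {b : ℕ} (hN : N ^ b = 0)
    (T₀ : Fin d → Fin r) (hT : AlgebraicIndependent (Polynomial ℚ) (fun i => h (T₀ i)))
    (hmax : ∀ p : Fin r, ¬ AlgebraicIndependent (Polynomial ℚ) (fun i => h ((Fin.cons p T₀ : Fin (d + 1) → Fin r) i))) :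
    ∃ R : ℕ, ∀ k δ D : ℕ,
      (∃ E : ℕ, ∀ H t : ℕ, (H + 2) ^ E ≤ t → ∀ g : Fin k → ℕ, SepR R g → (∀ l, g l ≤ H) →
        ∀ Ω Θ : Matrix (Fin n) (Fin n) ℂ, Ω * Θ = 1 →
        ∀ (K : IntermediateField ℚ ℂ) [FiniteDimensional ℚ K], finrank ℚ K ≤ D →
          ∀ z : Fin k × Option (Fin n × Fin n) → ℂ,
            (∀ V : Submodule K ℂ, (∀ x, z x ∈ V) → ∀ l, ((Real.log ((t - g l : ℕ) : ℝ) : ℝ) : ℂ) ∈ V ∧
              ∀ i j, (Ω * EX N (-((Real.log ((t - g l : ℕ) : ℝ) : ℝ) : ℂ)) * Zr h ψ ((t - g l : ℕ) : ℝ)) i j ∈ V) →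
            ∃ σ : Fin ((k - 1) * (d + 1)) → Fin k × Option (Fin n × Fin n), Function.Injective σ ∧ LIb K δ (fun i => z (σ i))) ∧
      (∀ Ω Θ : Matrix (Fin n) (Fin n) ℂ, Ω * Θ = 1 → ∀ (s : ℕ) (ω : Fin s → ℂ),
        (∀ i j, IsAlgebraic (Algebra.adjoin ℚ (Set.range ω)) (Ω i j)) →
        ∃ E : ℕ, ∀ H t : ℕ, (H + 2) ^ E ≤ t → ∀ g : Fin k → ℕ, SepR R g → (∀ l, g l ≤ H) →
        ∀ (K : IntermediateField ℚ ℂ) [FiniteDimensional ℚ K], finrank ℚ K ≤ D →
          ∀ z : Fin k × Option (Fin n × Fin n) → ℂ,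
            (∀ V : Submodule K ℂ, (∀ x, z x ∈ V) → ∀ l, ((Real.log ((t - g l : ℕ) : ℝ) : ℝ) : ℂ) ∈ V ∧
              ∀ i j, (Ω * EX N (-((Real.log ((t - g l : ℕ) : ℝ) : ℝ) : ℂ)) * Zr h ψ ((t - g l : ℕ) : ℝ)) i j ∈ V) →
            ∃ σ : Fin (k * (d + 1) - (s + 1)) → Fin k × Option (Fin n × Fin n), Function.Injective σ ∧ LIb K δ (fun i => z (σ i))) := by
  classical
  obtain ⟨C₁, hC₁, hCh⟩ := hF.size'
  obtain ⟨C₂, hC₂, hCW⟩ := hWs
  set C := C₁ + C₂ with hCdef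
  have hC : 1 ≤ C := by linarith
  have hCZ' : ∀ i j m, |((PowerSeries.coeff m (h (ψ (i, j))) : ℚ) : ℝ)| ≤ C ^ (m + 1) := fun i j m =>
    (hCh _ m).trans (pow_le_pow_left₀ (by linarith) (by linarith) _)
  have hCW' : ∀ i j m, |((PowerSeries.coeff m (W i j) : ℚ) : ℝ)| ≤ C ^ (m + 1) := fun i j m =>
    (hCW i j m).trans (pow_le_pow_left₀ (by linarith) (by linarith) _)
  obtain ⟨R, hbase⟩ := base hF
  obtain ⟨t₁, ht₁⟩ := ref_gr hF T₀ hT hmax
  choose Φ hΦ using ht₁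
  obtain ⟨c₂, hc₂⟩ := Pool.Agent.Y678.HG.exists_two_pow (C + 1 + t₁)
  have hlarge : ∀ {E H t g : ℕ}, (H + 2) ^ (E + (c₂ + 1)) ≤ t → g ≤ H → (H + 2) ^ E ≤ t ∧ t₁ ≤ t - g ∧ C < ((t - g : ℕ) : ℝ) ∧
      g < t := by
    intro E H t g ht hg
    have h5 := Pool.Agent.Y113.GG.sub_large (c := c₂) (by omega : c₂ + 1 ≤ E + (c₂ + 1)) ht hg
    have h6 : (2 : ℝ) ^ c₂ ≤ ((t - g : ℕ) : ℝ) := by exact_mod_cast h5
    have h7 : C + 1 + t₁ ≤ ((t - g : ℕ) : ℝ) := hc₂.trans h6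
    have h8 : (0 : ℝ) ≤ t₁ := Nat.cast_nonneg _
    refine ⟨(Nat.pow_le_pow_right (by omega) (by omega)).trans ht, ?_, by linarith, ?_⟩
    · have : (t₁ : ℝ) ≤ ((t - g : ℕ) : ℝ) := by linarith
      exact_mod_cast this
    · have : 1 ≤ 2 ^ c₂ := Nat.one_le_two_pow
      omega
  -- the logarithm
  have hlog : ∀ {t g : ℕ}, g < t → ((Real.log (1 - g / t) : ℝ) : ℂ) =
      ((Real.log ((t - g : ℕ) : ℝ) : ℝ) : ℂ) - ((Real.log t : ℝ) : ℂ) := by
    intro t g hg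
    have h1 : (0 : ℝ) < t := by
      have : 0 < t := by omega
      exact_mod_cast this
    have h2 : (0 : ℝ) < ((t - g : ℕ) : ℝ) := by
      have : 0 < t - g := by omega
      exact_mod_cast this
    have h3 : (1 : ℝ) - g / t = ((t - g : ℕ) : ℝ) / t := by
      rw [Nat.cast_sub hg.le]
      field_simp
    rw [h3, Real.log_div h2.ne' h1.ne', Complex.ofReal_sub]
  have hcardι : ∀ k : ℕ, Fintype.card (Fin k × Option (Fin n × Fin n)) = k * (n * n + 1) := fun k => by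
    rw [Fintype.card_prod, Fintype.card_option, Fintype.card_prod, Fintype.card_fin, Fintype.card_fin]
  have hcardj : ∀ k : ℕ, Fintype.card (Fin k × Option (Fin d)) = k * (d + 1) := fun k => by
    rw [Fintype.card_prod, Fintype.card_option, Fintype.card_fin, Fintype.card_fin]
  have hdetΩ : ∀ {Ω Θ : Matrix (Fin n) (Fin n) ℂ}, Ω * Θ = 1 → Ω.det ≠ 0 := by
    intro Ω Θ h
    have h2 : Ω.det * Θ.det = 1 := by rw [← Matrix.det_mul, h, Matrix.det_one]
    exact left_ne_zero_of_mul_eq_one h2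
  refine ⟨R, fun k δ D => ⟨?_, ?_⟩⟩
  · obtain ⟨N₁, hN₁⟩ := Pool.Agent.Y124.TH.core_abs (k * (d + 1)) δ D (d + 1) (b + 1 + (n + 1)) (k * (n * n + 1)) Φ
    obtain ⟨E, hE⟩ := hbase T₀ hT N₁ k
    refine ⟨E + (c₂ + 1), ?_⟩
    intro H t hHt g hg hgH Ω Θ hΩ K _ hK z hz
    rcases Nat.eq_zero_or_pos k with hk | hk
    · refine libz K δ z ?_
      rw [hk]
      simp
    have h1 := (hlarge (E := E) (g := 0) hHt (Nat.zero_le _)).1
    have hkd : k * (d + 1) - (d + 1) = (k - 1) * (d + 1) := by rw [Nat.sub_mul, one_mul]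
    rw [← hkd]
    refine hN₁ K hK _ (hcardι k) z _ (hcardj k) (fun i => xv h T₀ t (g i.1) i.2) (fun c e W₁ h1 hzW hG => ?_) (hE H t h1 g hg hgH)
    set l0 : Fin k := ⟨0, hk⟩
    have hP := hz W₁ hzW
    obtain ⟨V₀, hV₀, hzv, hG₀⟩ := hΦ c e K W₁ h1 hG (t - g l0) (hlarge (E := E) hHt (hgH l0)).2.1
    have h10 : (1 : ℂ) ∈ V₀ := hV₀ h1
    obtain ⟨V', hV', hL, hG'⟩ := gr_fam (Φ c e) 1 (e + d) V₀ h10 hG₀ (fun _ => ((Real.log t : ℝ) : ℂ))
    have h11 : (1 : ℂ) ∈ V' := hV' h10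
    set L : Fin k → ℂ := fun l => ((Real.log ((t - g l : ℕ) : ℝ) : ℝ) : ℂ) with hLdef
    set Y : Fin k → Matrix (Fin n) (Fin n) ℂ := fun l => Zr h ψ ((t - g l : ℕ) : ℝ) with hYdef
    set P : Fin k → Matrix (Fin n) (Fin n) ℂ := fun l => Ω * EX N (-L l) * Y l with hPdef
    have hPV : ∀ l i j, P l i j ∈ V' := fun l i j => hV' (hV₀ ((hP l).2 i j))
    have hLV : ∀ l, L l ∈ V' := fun l => hV' (hV₀ (hP l).1)
    have hY0 : Zm W ((t - g l0 : ℕ) : ℝ) * Y l0 = 1 :=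
      inv_val (Z := fun i j => h (ψ (i, j))) hinv hC hCZ' hCW' (hlarge (E := E) hHt (hgH l0)).2.2.1
    have hY0' : Y l0 * Zm W ((t - g l0 : ℕ) : ℝ) = 1 := mul_eq_one_comm.1 hY0
    have hEX : ∀ x : ℂ, EX N x * EX N (-x) = 1 := fun x => by rw [EX_add hN, add_neg_cancel, EX_zero]
    have hdet : (P l0).det ≠ 0 := by
      have h3 : (Y l0).det * (Zm W ((t - g l0 : ℕ) : ℝ)).det = 1 := by
        rw [← Matrix.det_mul, hY0', Matrix.det_one]
      have h4 : (EX N (L l0)).det * (EX N (-L l0)).det = 1 := by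
        rw [← Matrix.det_mul, hEX, Matrix.det_one]
      show (Ω * EX N (-L l0) * Y l0).det ≠ 0
      rw [Matrix.det_mul, Matrix.det_mul]
      exact mul_ne_zero (mul_ne_zero (hdetΩ hΩ) (right_ne_zero_of_mul_eq_one h4)) (left_ne_zero_of_mul_eq_one h3)
    have hdV : (P l0).det ∈ V' ^ n := Pool.Agent.Y124.TG.det_mem _ (hPV l0)
    refine ⟨V', (P l0).det, h11, hG', hdet, pow_mem_mono h11 (by omega) hdV, fun i => ?_⟩
    obtain ⟨l, o⟩ := i
    rcases o with _ | i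
    · show (P l0).det * ((Real.log (1 - g l / t) : ℝ) : ℂ) ∈ _
      rw [hlog (hlarge (E := E) hHt (hgH l)).2.2.2]
      have h3 : L l - ((Real.log t : ℝ) : ℂ) ∈ V' ^ 1 := by
        rw [pow_one]
        exact Submodule.sub_mem _ (hLV l) (hL 0)
      exact pow_mem_mono h11 (by omega) (pow_mem_add hdV h3)
    · obtain ⟨⟨a, a'⟩, ha⟩ := hψ (T₀ i)
      have hmat : (EX N (L l - L l0) * Y l0) * ((P l0).adjugate * P l) = (P l0).det • Y l := by
        have h2 : P l = P l0 * (Zm W ((t - g l0 : ℕ) : ℝ) * (EX N (L l0 - L l) * Y l)) := by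
          show Ω * EX N (-L l) * Y l = Ω * EX N (-L l0) * Y l0 * _
          have h3 : EX N (-L l) = EX N (-L l0) * EX N (L l0 - L l) := by
            rw [EX_add hN]
            congr 1
            ring
          calc Ω * EX N (-L l) * Y l = Ω * EX N (-L l0) * (1 * (EX N (L l0 - L l) * Y l)) := by
                rw [h3, one_mul]
                simp only [mul_assoc]
            _ = _ := by
                rw [← hY0']
                simp only [mul_assoc]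
        have h4 : EX N (L l - L l0) * EX N (L l0 - L l) = 1 := by
          rw [EX_add hN]
          have : L l - L l0 + (L l0 - L l) = 0 := by ring
          rw [this, EX_zero]
        calc (EX N (L l - L l0) * Y l0) * ((P l0).adjugate * P l)
            = (EX N (L l - L l0) * Y l0) * (((P l0).adjugate * P l0) * (Zm W ((t - g l0 : ℕ) : ℝ) * (EX N (L l0 - L l) * Y l))) := by
              conv_lhs => rw [h2]
              rw [mul_assoc (P l0).adjugate]
          _ = (P l0).det • ((EX N (L l - L l0) * Y l0) * (Zm W ((t - g l0 : ℕ) : ℝ) * (EX N (L l0 - L l) * Y l))) := by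
              rw [Matrix.adjugate_mul, Matrix.smul_mul, one_mul, Matrix.mul_smul]
          _ = (P l0).det • (EX N (L l - L l0) * ((Y l0 * Zm W ((t - g l0 : ℕ) : ℝ)) * (EX N (L l0 - L l) * Y l))) := by
              simp only [mul_assoc]
          _ = (P l0).det • Y l := by rw [hY0', one_mul, ← mul_assoc, h4, one_mul]
      have h2 : (P l0).det * xv h T₀ t (g l) (some i) =
          ((EX N (L l - L l0) * Y l0) * ((P l0).adjugate * P l)) a a' := by
        rw [hmat, Matrix.smul_apply, smul_eq_mul]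
        show _ * hv h ((t - g l : ℕ) : ℝ) (T₀ i) = _ * hv h ((t - g l : ℕ) : ℝ) (ψ (a, a'))
        rw [ha]
      show (P l0).det * xv h T₀ t (g l) (some i) ∈ _
      rw [h2]
      exact mul_mem' (V := V') (a := b + 1) (b := n + 1) _ _
        (fun i j => mul_mem' (V := V') (a := b) (b := 1) _ _ (EX_mem h11 hN (Submodule.sub_mem _ (hLV l) (hLV l0)))
          (fun i j => by rw [pow_one]; exact hV' (hzv (ψ (i, j)))) i j)
        (fun i j => mul_mem' (V := V') (a := n) (b := 1) _ _ (adj_mem h11 _ (hPV l0)) (fun i j => by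
          rw [pow_one]
          exact hPV l i j) i j) a a'
  · intro Ω Θ hΩ s ω hω
    choose av mv lv κv hl0 hrel hmem using fun p : Fin n × Fin n => alg_rel ω (hω p.1 p.2)
    choose Ψ hΨ using fun c e : ℕ => gr_algs2 c (e + (s + 1)) (Finset.univ.sup av) (Finset.univ.sup fun p => mv p + 1)
      (Fintype.card (Fin n × Fin n))
    obtain ⟨N₁, hN₁⟩ := Pool.Agent.Y124.TH.core_abs (k * (d + 1)) δ D (s + 1) (b + (n + 1)) (k * (n * n + 1)) Ψ
    obtain ⟨E, hE⟩ := hbase T₀ hT N₁ k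
    refine ⟨E + (c₂ + 1), ?_⟩
    intro H t hHt g hg hgH K _ hK z hz
    have h1 := (hlarge (E := E) (g := 0) hHt (Nat.zero_le _)).1
    refine hN₁ K hK _ (hcardι k) z _ (hcardj k) (fun i => xv h T₀ t (g i.1) i.2) (fun c e W₁ h1 hzW hG => ?_) (hE H t h1 g hg hgH)
    have hP := hz W₁ hzW
    obtain ⟨V₁, hV₁, hωV, hG₁⟩ := gr_fam c (s + 1) e W₁ h1 hG (Fin.cons ((Real.log t : ℝ) : ℂ) ω : Fin (s + 1) → ℂ)
    have h10 : (1 : ℂ) ∈ V₁ := hV₁ h1
    have hω' : ∀ i, ω i ∈ V₁ := fun i => by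
      have := hωV i.succ
      rwa [Fin.cons_succ] at this
    have hLt : ((Real.log t : ℝ) : ℂ) ∈ V₁ := by
      have := hωV 0
      rwa [Fin.cons_zero] at this
    obtain ⟨V', hV', hΩV, hG'⟩ := hΨ c e K V₁ h10 hG₁ (Fin n × Fin n) rfl (fun p => Ω p.1 p.2) (fun p => by
      obtain ⟨h2, h3⟩ := hmem p K V₁ h10 hω'
      have hle : av p ≤ Finset.univ.sup av := Finset.le_sup (Finset.mem_univ p)
      exact ⟨mv p, lv p, κv p, Finset.le_sup (f := fun p => mv p + 1) (Finset.mem_univ p), hl0 p, pow_mem_mono h10 hle h2,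
        fun j => pow_mem_mono h10 hle (h3 j), hrel p⟩)
    have h11 : (1 : ℂ) ∈ V' := hV' h10
    set L : Fin k → ℂ := fun l => ((Real.log ((t - g l : ℕ) : ℝ) : ℝ) : ℂ) with hLdef
    set Y : Fin k → Matrix (Fin n) (Fin n) ℂ := fun l => Zr h ψ ((t - g l : ℕ) : ℝ) with hYdef
    set P : Fin k → Matrix (Fin n) (Fin n) ℂ := fun l => Ω * EX N (-L l) * Y l with hPdef
    have hPV : ∀ l i j, P l i j ∈ V' := fun l i j => hV' (hV₁ ((hP l).2 i j))
    have hLV : ∀ l, L l ∈ V' := fun l => hV' (hV₁ (hP l).1)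
    have hdV : Ω.det ∈ V' ^ n := Pool.Agent.Y124.TG.det_mem _ (fun i j => hΩV (i, j))
    refine ⟨V', Ω.det, h11, hG', hdetΩ hΩ, pow_mem_mono h11 (by omega) hdV, fun i => ?_⟩
    obtain ⟨l, o⟩ := i
    rcases o with _ | i
    · show Ω.det * ((Real.log (1 - g l / t) : ℝ) : ℂ) ∈ _
      rw [hlog (hlarge (E := E) hHt (hgH l)).2.2.2]
      have h3 : L l - ((Real.log t : ℝ) : ℂ) ∈ V' ^ 1 := by
        rw [pow_one]
        exact Submodule.sub_mem _ (hLV l) (hV' hLt)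
      exact pow_mem_mono h11 (by omega) (pow_mem_add hdV h3)
    · obtain ⟨⟨a, a'⟩, ha⟩ := hψ (T₀ i)
      have hmat : EX N (L l) * (Ω.adjugate * P l) = Ω.det • Y l := by
        show EX N (L l) * (Ω.adjugate * (Ω * EX N (-L l) * Y l)) = _
        have h4 : EX N (L l) * EX N (-L l) = 1 := by rw [EX_add hN, add_neg_cancel, EX_zero]
        calc EX N (L l) * (Ω.adjugate * (Ω * EX N (-L l) * Y l)) = EX N (L l) * ((Ω.adjugate * Ω) * (EX N (-L l) * Y l)) := by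
              simp only [mul_assoc]
          _ = Ω.det • ((EX N (L l) * EX N (-L l)) * Y l) := by
              rw [Matrix.adjugate_mul, Matrix.smul_mul, one_mul, Matrix.mul_smul, mul_assoc]
          _ = _ := by rw [h4, one_mul]
      have h2 : Ω.det * xv h T₀ t (g l) (some i) = (EX N (L l) * (Ω.adjugate * P l)) a a' := by
        rw [hmat, Matrix.smul_apply, smul_eq_mul]
        show _ * hv h ((t - g l : ℕ) : ℝ) (T₀ i) = _ * hv h ((t - g l : ℕ) : ℝ) (ψ (a, a'))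
        rw [ha]
      show Ω.det * xv h T₀ t (g l) (some i) ∈ _
      rw [h2]
      exact mul_mem' (V := V') (a := b) (b := n + 1) _ _ (EX_mem h11 hN (hLV l))
        (fun i j => mul_mem' (V := V') (a := n) (b := 1) _ _ (adj_mem h11 _ (fun i j => hΩV (i, j))) (fun i j => by
          rw [pow_one]
          exact hPV l i j) i j) a a'

end Pool.Agent.Y124.TL
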