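import Pool.Agent.Y124.TL.Ba
import Pool.Agent.Y124.TG.Rf

/-!
# The growth of the space of the values at one point
-/

set_option autoImplicit false

open Module Finset

namespace Pool.Agent.Y124.TL

open Pool.Agent.Y124.TD Pool.Agent.Y124.TG Pool.Agent.Y37.GF Pool.Agent.Y120.GH Pool.Agent.Y113.GG

variable {r d : ℕ} {K : IntermediateField ℚ ℂ}

open PowerSeries in
lemma ev_ywE {h : Fin r → ℚ⟦X⟧} {C : ℝ} (hC : 1 ≤ C) (hh : ∀ i m, |((coeff m (h i) : ℚ) : ℝ)| ≤ C ^ (m + 1)) {δ : ℕ}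
    (b : Fin δ → Option (Fin r)) {x : ℝ} (hx : C < x) : SR (1 / x) (yw h b) := by
  have hx0 : 0 < x := by linarith
  unfold yw
  refine SR.prod _ (by positivity) fun j _ => ?_
  rcases b j with _ | i
  · exact SR.one _
  · exact sr_of hC (hh i) hx

open PowerSeries in
/-- the value of a relation -/
lemma rel_val {h : Fin r → ℚ⟦X⟧} {C : ℝ} (hC : 1 ≤ C)
    (hh : ∀ i m, |((coeff m (h i) : ℚ) : ℝ)| ≤ C ^ (m + 1)) (T : Fin d → Fin r) {δ : ℕ}
    (g : (Fin d → Fin (δ + 1)) → Polynomial ℚ) (hg : ∑ s, g s • ∏ i, h (T i) ^ (s i : ℕ) = 0) {x : ℝ} (hx : C < x) :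
    ∑ s, ((Polynomial.aeval (1 / x) (g s) : ℝ) : ℂ) * ∏ i, hv h x (T i) ^ (s i : ℕ) = 0 := by
  have hx0 : 0 < x := by linarith
  have hz : |1 / x| ≤ 1 / x := by rw [abs_of_pos (by positivity)]
  have hwd : ∀ s : Fin d → Fin (δ + 1), yw h (wP T s) = ∏ i, h (T i) ^ (s i : ℕ) := fun s => yw_wP T s h
  have h1 : ∑ s, (g s : ℚ⟦X⟧) * yw h (wP T s) = 0 := by
    rw [← hg]
    refine Finset.sum_congr rfl fun s _ => ?_
    rw [Pool.Agent.Y120.GF.psmul, hwd]
  have h2 : ((E (∑ s, (g s : ℚ⟦X⟧) * yw h (wP T s)) (1 / x) : ℝ) : ℂ) = ((E (0 : ℚ⟦X⟧) (1 / x) : ℝ) : ℂ) := by rw [h1]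
  have e3 := E_sum (r := 1 / x) (z := 1 / x) Finset.univ (F := fun s => (g s : ℚ⟦X⟧) * yw h (wP T s)) (by positivity)
    (fun s _ => SR.mul (by positivity) (SR.poly _ _) (ev_ywE hC hh (wP T s) hx)) hz
  have e0 : E (0 : ℚ⟦X⟧) (1 / x) = 0 := by
    have h := E_poly (0 : Polynomial ℚ) (1 / x)
    simpa using h
  rw [e0, e3, Complex.ofReal_sum, Complex.ofReal_zero] at h2
  rw [← h2]
  refine Finset.sum_congr rfl fun s _ => ?_
  rw [E_mul (SR.poly _ _) (ev_ywE hC hh (wP T s) hx) hz, E_poly, Complex.ofReal_mul]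
  congr 1
  have h3 := ev_yw hC hh (wP T s) hx
  rw [ev_eq] at h3
  rw [h3, yw_wP]

open PowerSeries in
/-- the growth of the space of the values at one point is the transcendence degree of the family -/
theorem ref_gr {T : Polynomial ℤ} {A : Fin r → Fin r → Polynomial ℤ} {h : Fin r → ℚ⟦X⟧} (hF : GF T A h)
    (T₀ : Fin d → Fin r) (hT : AlgebraicIndependent (Polynomial ℚ) (fun i => h (T₀ i)))
    (hmax : ∀ p : Fin r, ¬ AlgebraicIndependent (Polynomial ℚ)
      (fun i => h ((Fin.cons p T₀ : Fin (d + 1) → Fin r) i))) :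
    ∃ t₁ : ℕ, ∀ c e : ℕ, ∃ c' : ℕ, ∀ (K : IntermediateField ℚ ℂ) (V : Submodule K ℂ), (1 : ℂ) ∈ V → GR c e V →
      ∀ t : ℕ, t₁ ≤ t → ∃ V' : Submodule K ℂ, V ≤ V' ∧ (∀ p, hv h (t : ℝ) p ∈ V') ∧ GR c' (e + d) V' := by
  classical
  obtain ⟨C, hC, hCh⟩ := hF.size'
  obtain ⟨R, hbase⟩ := base hF
  choose δ g s₀ hs₀ hg using fun p => dep_box (hmax p)
  choose t₂ ht₂ using fun p => large_ne (hs₀ p)
  choose E hE using fun p => hbase T₀ hT (δ p) 1
  obtain ⟨b, hb⟩ := exists_nat_gt C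
  refine ⟨(Finset.univ.sup t₂) + (Finset.univ.sup fun p => (R + 2) ^ E p) + b + 1, fun c e => ?_⟩
  obtain ⟨c', hc'⟩ := gr_algs2 c (e + d) (Finset.univ.sup fun p => δ p * d) (Finset.univ.sup fun p => δ p) (Fintype.card (Fin r))
  refine ⟨c', ?_⟩
  intro K V h1 hV t ht
  obtain ⟨V₁, hV₁, hzV₁, hG₁⟩ := gr_fam c d e V h1 hV (fun i => hv h (t : ℝ) (T₀ i))
  have h11 : (1 : ℂ) ∈ V₁ := hV₁ h1
  obtain ⟨V', hV', hzV', hG'⟩ := hc' K V₁ h11 hG₁ (Fin r) rfl (fun p => hv h (t : ℝ) p) (fun p => by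
    have hp1 : t₂ p ≤ t := by
      have := Finset.le_sup (f := t₂) (Finset.mem_univ p)
      omega
    have hp2 : (R + 2) ^ E p ≤ t := by
      have := Finset.le_sup (f := fun p => (R + 2) ^ E p) (Finset.mem_univ p)
      omega
    have htr : C < (t : ℝ) := hb.trans_le (by
      have : b ≤ t := by omega
      exact_mod_cast this)
    have hli := hE p R (t + R) (hp2.trans (Nat.le_add_right _ _)) (fun _ => R)
      ⟨fun _ => le_rfl, fun l l' hll => absurd (Subsingleton.elim l l') hll⟩ (fun _ => le_rfl)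
    have hli2 : LinearIndependent ℚ (fun s : Fin d → Fin (δ p + 1) => ∏ i, hv h (t : ℝ) (T₀ i) ^ (s i : ℕ)) := by
      have h2 := hli.comp (fun (s : Fin d → Fin (δ p + 1)) (x : Fin 1 × Option (Fin d)) => x.2.elim 0 s) (by
        intro s s' hss
        funext i
        exact congrFun hss (0, some i))
      have h3 : (fun s : Fin d → Fin (δ p + 1) => ∏ i, hv h (t : ℝ) (T₀ i) ^ (s i : ℕ)) =
          (fun s : Fin 1 × Option (Fin d) → Fin (δ p + 1) => ∏ i, xv h T₀ (t + R) ((fun _ : Fin 1 => R) i.1) i.2 ^ (s i : ℕ)) ∘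
            (fun (s : Fin d → Fin (δ p + 1)) (x : Fin 1 × Option (Fin d)) => x.2.elim 0 s) := by
        funext s
        show _ = ∏ i : Fin 1 × Option (Fin d), xv h T₀ (t + R) R i.2 ^ ((i.2.elim 0 s : Fin (δ p + 1)) : ℕ)
        rw [Fintype.prod_prod_type, Fin.prod_univ_one, Fintype.prod_option]
        have h4 : xv h T₀ (t + R) R none ^ (((none : Option (Fin d)).elim 0 s : Fin (δ p + 1)) : ℕ) = 1 := pow_zero _
        rw [h4, one_mul]
        refine Finset.prod_congr rfl fun i _ => ?_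
        show _ = hv h ((t + R - R : ℕ) : ℝ) (T₀ i) ^ (s i : ℕ)
        rw [Nat.add_sub_cancel]
      rw [h3]
      exact h2
    have hrel := rel_val hC hCh (Fin.cons p T₀ : Fin (d + 1) → Fin r) (g p) (hg p) htr
    have hcoef : ∀ s, ((Polynomial.aeval (1 / (t : ℝ)) (g p s) : ℝ) : ℂ) = ((Polynomial.eval (1 / (t : ℚ)) (g p s) : ℚ) : ℂ) := by
      intro s
      have h2 : (1 / (t : ℝ)) = algebraMap ℚ ℝ (1 / (t : ℚ)) := by simp
      rw [h2, Polynomial.aeval_algebraMap_apply, Polynomial.coe_aeval_eq_eval]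
      simp
    obtain ⟨m, l, κ, hm, hl0, hl, hκ, hrel2⟩ := rel_of_depQ (δ := δ p) h11 hzV₁ hli2 (w := hv h (t : ℝ) p)
      (fun s => Polynomial.eval (1 / (t : ℚ)) (g p s)) (by
        rw [← hrel]
        refine Finset.sum_congr rfl fun s _ => ?_
        rw [hcoef]
        congr 1
        refine Finset.prod_congr rfl fun i _ => ?_
        refine Fin.cases ?_ (fun i => ?_) i
        · rw [Fin.cons_zero, Fin.cons_zero]
        · rw [Fin.cons_succ, Fin.cons_succ]) (s₀ p) (ht₂ p t hp1)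
    have hle : δ p * d ≤ Finset.univ.sup fun p => δ p * d := Finset.le_sup (f := fun p => δ p * d) (Finset.mem_univ p)
    exact ⟨m, l, κ, hm.trans (Finset.le_sup (f := fun p => δ p) (Finset.mem_univ p)), hl0, pow_mem_mono h11 hle hl,
      fun j => pow_mem_mono h11 hle (hκ j), hrel2⟩)
  exact ⟨V', hV₁.trans hV', hzV', hG'⟩

end Pool.Agent.Y124.TL
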